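import Pool.Agent.Helper7.BM.Goals2
import Pool.Agent.Helper85.BL.RES

/-!
Project BM (MP_57df85_nt), packet ZC: number of points on an auxiliary curve.
-/

set_option autoImplicit false

namespace Pool.Agent.Helper36.BM

open Polynomial Pool.Agent.Helper7.BM

theorem zc : StmtZC := by
  intro hCOP f g d α β K1 K2 hd hα hβ hab hf hg hfd hgd hK c hc Z hZ hZc hinj
  set fQ : ℚ[X] := f.map (Int.castRingHom ℚ) with hfQ
  set gQ : ℚ[X] := g.map (Int.castRingHom ℚ) with hgQ
  have hfm : fQ.Monic := hf.map _
  have hgm : gQ.Monic := hg.map _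
  have hfn : fQ.natDegree = d * α := by rw [hfQ, hf.natDegree_map, hfd]
  have hgn : gQ.natDegree = d * β := by rw [hgQ, hg.natDegree_map, hgd]
  set F : ℚ[X][X] := fQ.map C - C gQ with hF
  set G : ℚ[X][X] := ∑ ij : Fin K1 × Fin K2, monomial (ij.1 : ℕ) (monomial (ij.2 : ℕ) (c ij)) with hG
  obtain ⟨ij0, hij0⟩ := Function.ne_iff.mp hc
  have hK1 : 0 < K1 := lt_of_le_of_lt (Nat.zero_le _) ij0.1.2
  have hdα : 0 < d * α := Nat.mul_pos hd hα
  -- coefficients of `G`
  have hcoef : (G.coeff (ij0.1 : ℕ)).coeff (ij0.2 : ℕ) = c ij0 := by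
    rw [hG, finsetSum_coeff, finsetSum_coeff, Finset.sum_eq_single ij0]
    · rw [coeff_monomial, if_pos rfl, coeff_monomial, if_pos rfl]
    · intro b _ hb
      rw [coeff_monomial]
      split_ifs with h1
      · rw [coeff_monomial]
        split_ifs with h2
        · exfalso
          apply hb
          exact Prod.ext (Fin.ext h1) (Fin.ext h2)
        · rfl
      · simp
    · intro h
      exact absurd (Finset.mem_univ _) h
  have hG0 : G ≠ 0 := by
    intro h
    rw [h] at hcoef
    simp only [coeff_zero] at hcoef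
    exact hij0 hcoef.symm
  have hGn : G.natDegree ≤ K1 - 1 := by
    rw [hG]
    apply natDegree_sum_le_of_forall_le
    intro ij _
    refine (natDegree_monomial_le _).trans ?_
    have := ij.1.2
    omega
  have hGc : ∀ j, (G.coeff j).natDegree ≤ d * β + K2 := by
    intro j
    rw [hG, finsetSum_coeff]
    apply natDegree_sum_le_of_forall_le
    intro ij _
    rw [coeff_monomial]
    split_ifs
    · refine (natDegree_monomial_le _).trans ?_
      have := ij.2.2
      omega
    · simp
  have hFc : ∀ j, (F.coeff j).natDegree ≤ d * β + K2 := by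
    intro j
    rw [hF, coeff_sub, coeff_map]
    refine (natDegree_sub_le _ _).trans ?_
    rw [natDegree_C]
    have h1 : ((C gQ : ℚ[X][X]).coeff j).natDegree ≤ d * β := by
      rw [coeff_C]
      split_ifs
      · exact hgn.le
      · simp
    omega
  have hFn : F.natDegree ≤ d * α := by
    rw [hF]
    refine (natDegree_sub_le _ _).trans ?_
    rw [natDegree_C]
    have h1 : (fQ.map C).natDegree ≤ d * α := hfn ▸ natDegree_map_le
    omega
  have hFtop : F.coeff (d * α) = 1 := by
    rw [hF, coeff_sub, coeff_map, coeff_C_of_ne_zero hdα.ne', sub_zero, ← hfn]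
    rw [show fQ.coeff fQ.natDegree = 1 from hfm.coeff_natDegree, map_one]
  have hFn' : d * α ≤ F.natDegree := le_natDegree_of_ne_zero (by rw [hFtop]; exact one_ne_zero)
  have hF0 : F ≠ 0 := by
    intro h
    rw [h, coeff_zero] at hFtop
    exact one_ne_zero hFtop.symm
  have hrel : IsRelPrime F G := hCOP fQ gQ d α β hd hα hβ hab hfm hgm hfn hgn G hG0 (by omega)
  have hN0 : F.resultant G ≠ 0 := Pool.Agent.Helper85.BL.resultant_ne_zero' hF0 hrel
  have hNd : (F.resultant G).natDegree ≤ (F.natDegree + G.natDegree) * (d * β + K2) :=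
    Pool.Agent.Helper85.BL.natDegree_resultant_le hFc hGc _ _
  have hroot : ∀ z ∈ Z, (F.resultant G).eval (z.2 : ℚ) = 0 := by
    intro z hz
    refine Pool.Agent.Helper85.BL.eval_resultant (p := ((z.2 : ℚ), (z.1 : ℚ))) le_rfl le_rfl
      (Or.inl (by omega)) ?_ ?_
    · have h1 : fQ.eval (z.1 : ℚ) = gQ.eval (z.2 : ℚ) := by
        rw [hfQ, hgQ, eval_intCast_map, eval_intCast_map]
        exact congrArg _ (hZ z hz)
      show evalEval (z.2 : ℚ) (z.1 : ℚ) F = 0
      rw [hF, evalEval_sub, evalEval_map_C, evalEval_C, h1, sub_self]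
    · show evalEval (z.2 : ℚ) (z.1 : ℚ) G = 0
      rw [hG, evalEval_finsetSum, ← hZc z hz]
      apply Finset.sum_congr rfl
      intro ij _
      unfold evalEval
      rw [eval_monomial, eval_mul, eval_monomial, eval_pow, eval_C]
      ring
  -- counting the roots
  have hsub : Z.image (fun z => (z.2 : ℚ)) ⊆ (F.resultant G).roots.toFinset := by
    intro q hq
    obtain ⟨z, hz, rfl⟩ := Finset.mem_image.mp hq
    rw [Multiset.mem_toFinset, mem_roots hN0]
    exact hroot z hz
  have hcard : Z.card = (Z.image (fun z => (z.2 : ℚ))).card := by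
    rw [Finset.card_image_of_injOn]
    intro a ha b hb h
    have h' : ((a.2 : ℤ) : ℚ) = ((b.2 : ℤ) : ℚ) := h
    exact hinj ha hb (by exact_mod_cast h')
  calc Z.card = (Z.image (fun z => (z.2 : ℚ))).card := hcard
    _ ≤ (F.resultant G).roots.toFinset.card := Finset.card_le_card hsub
    _ ≤ (F.resultant G).roots.card := Multiset.toFinset_card_le _
    _ ≤ (F.resultant G).natDegree := card_roots' _
    _ ≤ (F.natDegree + G.natDegree) * (d * β + K2) := hNd
    _ ≤ (d * α + K1) * (d * β + K2) := Nat.mul_le_mul_right _ (by omega)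

end Pool.Agent.Helper36.BM
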